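import Pool.Agent.Lib.MP_d9b062_al.AlgDefs

/-!
# The block determinant is `1` on the Zariski closure of the group generated by `exp 𝔤`
-/

namespace Pool.Agent.Lib.MP_d9b062_al.Stmt

open NormedSpace Matrix

attribute [local instance 100] LieRing.ofAssociativeRing

namespace H19

lemma lie_top_eq_top {L : Type*} [LieRing L] [LieAlgebra ℝ L] [LieAlgebra.IsSemisimple ℝ L] :
    ⁅(⊤ : LieIdeal ℝ L), (⊤ : LieIdeal ℝ L)⁆ = ⊤ := by
  rw [eq_top_iff, ← LieAlgebra.IsSemisimple.sSup_atoms_eq_top (R := ℝ) (L := L)]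
  refine sSup_le fun I hI => ?_
  have h1 : ⁅I, I⁆ ≤ I := LieSubmodule.lie_le_right I I
  have h2 : ⁅I, I⁆ ≠ ⊥ := fun h => LieAlgebra.IsSemisimple.non_abelian_of_isAtom I hI
    ((LieSubmodule.lie_abelian_iff_lie_self_eq_bot I).2 h)
  have h3 : ⁅I, I⁆ = I := ((IsAtom.le_iff hI).1 h1).resolve_left h2
  conv_lhs => rw [← h3]
  exact LieSubmodule.mono_lie (le_sSup hI) (le_sSup hI)

/-- A linear map which vanishes on all brackets vanishes on a semisimple Lie algebra. -/
lemma eq_zero_of_bracket {L M : Type*} [LieRing L] [LieAlgebra ℝ L] [LieAlgebra.IsSemisimple ℝ L]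
    [AddCommGroup M] [Module ℝ M] (f : L →ₗ[ℝ] M) (h : ∀ x y : L, f ⁅x, y⁆ = 0) : f = 0 := by
  have h1 : (⊤ : Submodule ℝ L) ≤ LinearMap.ker f := by
    have h2 := LieSubmodule.lieIdeal_oper_eq_linear_span' (I := (⊤ : LieIdeal ℝ L))
      (N := (⊤ : LieIdeal ℝ L))
    rw [lie_top_eq_top] at h2
    have h3 : (LieSubmodule.toSubmodule (⊤ : LieIdeal ℝ L)) = ⊤ := rfl
    rw [h3] at h2
    rw [h2, Submodule.span_le]
    rintro _ ⟨x, _, y, _, rfl⟩
    exact h x y
  ext x
  exact h1 (Submodule.mem_top (x := x))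

variable {N : ℕ}

/-- the determinant of the block of `T` cut out by the idempotent `P` -/
noncomputable def chi (P : Matrix (Fin N) (Fin N) ℂ) (T : Matrix (Fin N) (Fin N) ℝ) : ℂ :=
  (T.map Complex.ofReal * P + (1 - P)).det

lemma re_im_poly {σ : Type*} (q : MvPolynomial σ ℂ) : ∃ a b : MvPolynomial σ ℝ, ∀ x : σ → ℝ,
    MvPolynomial.eval (fun i => (x i : ℂ)) q =
      (MvPolynomial.eval x a : ℝ) + (MvPolynomial.eval x b : ℝ) * Complex.I := by
  induction q using MvPolynomial.induction_on with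
  | C c =>
    refine ⟨MvPolynomial.C c.re, MvPolynomial.C c.im, fun x => ?_⟩
    simp
  | add p q hp hq =>
    obtain ⟨a, b, h⟩ := hp
    obtain ⟨a', b', h'⟩ := hq
    refine ⟨a + a', b + b', fun x => ?_⟩
    simp only [map_add, h, h', Complex.ofReal_add]
    ring
  | mul_X p i hp =>
    obtain ⟨a, b, h⟩ := hp
    refine ⟨a * MvPolynomial.X i, b * MvPolynomial.X i, fun x => ?_⟩
    simp only [map_mul, MvPolynomial.eval_X, h, Complex.ofReal_mul]
    ring

lemma chi_poly (P : Matrix (Fin N) (Fin N) ℂ) : ∃ q : MvPolynomial (Fin N × Fin N) ℂ,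
    ∀ T : Matrix (Fin N) (Fin N) ℝ,
      MvPolynomial.eval (fun ij : Fin N × Fin N => ((T ij.1 ij.2 : ℝ) : ℂ)) q = chi P T := by
  refine ⟨((Matrix.of fun i j => MvPolynomial.X (i, j)) * P.map MvPolynomial.C +
    (1 - P).map MvPolynomial.C).det, fun T => ?_⟩
  rw [RingHom.map_det, chi]
  congr 1
  ext i j
  simp [Matrix.mul_apply, map_sum]

lemma chi_one (P : Matrix (Fin N) (Fin N) ℂ) : chi P 1 = 1 := by
  have : (1 : Matrix (Fin N) (Fin N) ℝ).map Complex.ofReal = 1 := by
    ext i j
    simp only [Matrix.map_apply, Matrix.one_apply]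
    split_ifs <;> simp
  rw [chi, this, one_mul, add_sub_cancel, Matrix.det_one]

lemma cmap_mul (S T : Matrix (Fin N) (Fin N) ℝ) :
    (S * T).map Complex.ofReal = S.map Complex.ofReal * T.map Complex.ofReal := by
  ext i j
  simp [Matrix.mul_apply]

lemma chi_mul {P : Matrix (Fin N) (Fin N) ℂ} (hP : P * P = P) (S : Matrix (Fin N) (Fin N) ℝ)
    {T : Matrix (Fin N) (Fin N) ℝ}
    (hT : T.map Complex.ofReal * P = P * T.map Complex.ofReal) :
    chi P (S * T) = chi P S * chi P T := by
  rw [chi, chi, chi, ← Matrix.det_mul, cmap_mul]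
  congr 1
  set A := S.map Complex.ofReal
  set B := T.map Complex.ofReal
  have h1 : A * P * (B * P) = A * B * P := by
    rw [hT, mul_assoc A P, ← mul_assoc P P, hP, ← hT, mul_assoc]
  have h2 : A * P * (1 - P) = 0 := by
    rw [mul_sub, mul_one, mul_assoc, hP, sub_self]
  have h3 : (1 - P) * (B * P) = 0 := by
    rw [sub_mul, one_mul, hT, ← mul_assoc, hP, sub_self]
  have h4 : (1 - P) * (1 - P) = 1 - P := by
    rw [mul_sub, mul_one, sub_mul, one_mul, hP, sub_self, sub_zero]
  rw [add_mul, mul_add, mul_add, h1, h2, h3, h4, add_zero, zero_add]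

section analysis

open scoped Matrix.Norms.Operator

lemma entry_differentiable (i j : Fin N) :
    Differentiable ℝ (fun M : Matrix (Fin N) (Fin N) ℂ => M i j) := by
  let L : Matrix (Fin N) (Fin N) ℂ →ₗ[ℝ] ℂ :=
    { toFun := fun M => M i j, map_add' := fun _ _ => rfl, map_smul' := fun _ _ => rfl }
  have h : Continuous L := LinearMap.continuous_of_finiteDimensional L
  exact (⟨L, h⟩ : Matrix (Fin N) (Fin N) ℂ →L[ℝ] ℂ).differentiable

lemma det_differentiable :
    Differentiable ℝ (fun M : Matrix (Fin N) (Fin N) ℂ => M.det) := by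
  simp only [Matrix.det_apply']
  refine Differentiable.fun_sum fun σ _ => ?_
  refine Differentiable.const_mul ?_ _
  have key : ∀ s : Finset (Fin N),
      Differentiable ℝ (fun M : Matrix (Fin N) (Fin N) ℂ => ∏ i ∈ s, M (σ i) i) := by
    intro s
    induction s using Finset.induction_on with
    | empty => simp only [Finset.prod_empty]; exact differentiable_const _
    | insert a s ha ih =>
      simp only [Finset.prod_insert ha]
      exact (entry_differentiable _ _).mul ih
  exact key _

lemma hasDerivAt_det_line (A : Matrix (Fin N) (Fin N) ℂ) :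
    HasDerivAt (fun t : ℝ => (1 + t • A).det) A.trace 0 := by
  have h : ∀ t : ℝ, (1 + t • A).det = 1 + A.trace * (t : ℂ) +
      (det (1 + (Polynomial.X : Polynomial ℂ) • A.map Polynomial.C)).divX.divX.eval (t : ℂ) *
        (t : ℂ) ^ 2 := by
    intro t
    rw [← Matrix.det_one_add_smul]
    rfl
  simp only [h]
  set q := (det (1 + (Polynomial.X : Polynomial ℂ) • A.map Polynomial.C)).divX.divX
  have h1 : HasDerivAt (fun z : ℂ => 1 + A.trace * z + q.eval z * z ^ 2)
      (A.trace * 1 + (q.derivative.eval (0 : ℂ) * (0 : ℂ) ^ 2 + q.eval (0 : ℂ) * (2 * (0 : ℂ)))) 0 := by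
    refine HasDerivAt.add ?_ ?_
    · exact ((hasDerivAt_id (0 : ℂ)).const_mul A.trace).const_add 1
    · refine (q.hasDerivAt 0).mul ?_
      simpa using hasDerivAt_pow 2 (0 : ℂ)
  have h2 := HasDerivAt.comp_ofReal (z := 0) (by simpa using h1)
  simpa using h2

lemma fderiv_det (A : Matrix (Fin N) (Fin N) ℂ) :
    fderiv ℝ (fun M : Matrix (Fin N) (Fin N) ℂ => M.det) 1 A = A.trace := by
  have h1 : HasDerivAt (fun t : ℝ => (1 + t • A)) A 0 := by
    have h := ((hasDerivAt_id (0 : ℝ)).smul_const A).const_add (1 : Matrix (Fin N) (Fin N) ℂ)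
    rw [one_smul] at h
    exact h
  have h2 : HasFDerivAt (fun M : Matrix (Fin N) (Fin N) ℂ => M.det)
      (fderiv ℝ (fun M : Matrix (Fin N) (Fin N) ℂ => M.det) 1) (1 + (0 : ℝ) • A) := by
    rw [zero_smul, add_zero]
    exact (det_differentiable 1).hasFDerivAt
  exact (HasFDerivAt.comp_hasDerivAt (0 : ℝ) h2 h1).unique (hasDerivAt_det_line A)

set_option backward.isDefEq.respectTransparency false in
lemma hasDerivAt_exp0 (X : Matrix (Fin N) (Fin N) ℝ) :
    HasDerivAt (fun s : ℝ => (exp (s • X) : Matrix (Fin N) (Fin N) ℝ)) X 0 := by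
  have h1 := hasDerivAt_exp_smul_const (𝕂 := ℝ) X (0 : ℝ)
  rw [zero_smul, exp_zero, one_mul] at h1
  exact h1

lemma hasDerivAt_chi_exp (P : Matrix (Fin N) (Fin N) ℂ) (X : Matrix (Fin N) (Fin N) ℝ) :
    HasDerivAt (fun t : ℝ => chi P (exp (t • X))) (X.map Complex.ofReal * P).trace 0 := by
  let L : Matrix (Fin N) (Fin N) ℝ →ₗ[ℝ] Matrix (Fin N) (Fin N) ℂ :=
    { toFun := fun M => M.map Complex.ofReal * P
      map_add' := fun A B => by
        rw [← add_mul]; congr 1; ext i j; simp
      map_smul' := fun c A => by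
        rw [RingHom.id_apply, ← smul_mul_assoc]; congr 1; ext i j; simp }
  have hL : Continuous L := LinearMap.continuous_of_finiteDimensional L
  let L' : Matrix (Fin N) (Fin N) ℝ →L[ℝ] Matrix (Fin N) (Fin N) ℂ := ⟨L, hL⟩
  have h1 : HasDerivAt (fun t : ℝ => L' (exp (t • X)) + (1 - P)) (L' X) 0 :=
    (L'.hasFDerivAt.comp_hasDerivAt (0 : ℝ) (hasDerivAt_exp0 X)).add_const _
  have e : (fun t : ℝ => L' (exp (t • X)) + (1 - P)) 0 = 1 := by
    have := chi_one P
    change (exp ((0 : ℝ) • X)).map Complex.ofReal * P + (1 - P) = 1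
    rw [zero_smul, exp_zero]
    have : (1 : Matrix (Fin N) (Fin N) ℝ).map Complex.ofReal = 1 := by
      ext i j
      simp only [Matrix.map_apply, Matrix.one_apply]
      split_ifs <;> simp
    rw [this, one_mul, add_sub_cancel]
  have h2 : HasFDerivAt (fun M : Matrix (Fin N) (Fin N) ℂ => M.det)
      (fderiv ℝ (fun M : Matrix (Fin N) (Fin N) ℂ => M.det) 1)
      ((fun t : ℝ => L' (exp (t • X)) + (1 - P)) 0) := by
    rw [e]
    exact (det_differentiable 1).hasFDerivAt
  have h3 := HasFDerivAt.comp_hasDerivAt (0 : ℝ) h2 h1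
  exact h3.congr_deriv (fderiv_det (L' X))

end analysis

lemma chi_exp_eq_one {P : Matrix (Fin N) (Fin N) ℂ} (hP : P * P = P)
    {X : Matrix (Fin N) (Fin N) ℝ}
    (hX : ∀ t : ℝ, (exp (t • X)).map Complex.ofReal * P = P * (exp (t • X)).map Complex.ofReal)
    (h0 : (X.map Complex.ofReal * P).trace = 0) (t : ℝ) : chi P (exp (t • X)) = 1 := by
  have h1 : ∀ t : ℝ, HasDerivAt (fun t : ℝ => chi P (exp (t • X))) 0 t := by
    intro t
    have h2 := hasDerivAt_chi_exp P X
    rw [h0] at h2
    have h3 : HasDerivAt (fun s : ℝ => chi P (exp ((s - t) • X))) 0 t := by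
      have h5 : HasDerivAt (fun t : ℝ => chi P (exp (t • X))) 0 (t - t) := by
        rw [sub_self]; exact h2
      have := h5.comp_sub_const t t
      exact this
    have h4 := h3.const_mul (chi P (exp (t • X)))
    rw [mul_zero] at h4
    refine h4.congr_of_eventuallyEq (Filter.Eventually.of_forall fun s => ?_)
    have e : s = t + (s - t) := by ring
    change chi P (exp (s • X)) = _
    conv_lhs => rw [e, add_smul, Matrix.exp_add_of_commute _ _
      (((Commute.refl X).smul_left _).smul_right _), chi_mul hP _ (hX (s - t))]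
  have h2 : chi P (exp (t • X)) = chi P (exp ((0 : ℝ) • X)) :=
    is_const_of_deriv_eq_zero (f := fun t : ℝ => chi P (exp (t • X)))
      (fun t => (h1 t).differentiableAt) (fun t => (h1 t).deriv) t 0
  rw [h2, zero_smul, exp_zero, chi_one]

section commute

open scoped Matrix.Norms.Operator

set_option backward.isDefEq.respectTransparency false in
lemma map_exp_real (X : Matrix (Fin N) (Fin N) ℝ) :
    (exp X).map Complex.ofReal = exp (X.map Complex.ofReal) := by
  let f : Matrix (Fin N) (Fin N) ℝ →+* Matrix (Fin N) (Fin N) ℂ := Complex.ofRealHom.mapMatrix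
  have hf : Continuous f := Continuous.matrix_map continuous_id Complex.continuous_ofReal
  exact map_exp f hf X

end commute

lemma exp_commutes {P : Matrix (Fin N) (Fin N) ℂ} {X : Matrix (Fin N) (Fin N) ℝ}
    (h : X.map Complex.ofReal * P = P * X.map Complex.ofReal) :
    (exp X).map Complex.ofReal * P = P * (exp X).map Complex.ofReal := by
  rw [map_exp_real]
  have h1 : Commute (X.map Complex.ofReal) P := h
  exact h1.exp_left

end H19

variable {N : ℕ} {𝔤 : LieSubalgebra ℝ (Matrix (Fin N) (Fin N) ℝ)}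

theorem det_block_eq_one [LieAlgebra.IsSemisimple ℝ 𝔤] {P : Matrix (Fin N) (Fin N) ℂ}
    (hP : P * P = P) (hc : ∀ X ∈ 𝔤, X.map Complex.ofReal * P = P * X.map Complex.ofReal)
    {T : Matrix (Fin N) (Fin N) ℝ} (hT : InZcl 𝔤 T) :
    (T.map Complex.ofReal * P + (1 - P)).det = 1 := by
  -- the trace of `X P` vanishes on `𝔤`
  let tr : 𝔤 →ₗ[ℝ] ℂ :=
    { toFun := fun X => (X.1.map Complex.ofReal * P).trace
      map_add' := fun A B => by
        have : ((A + B : 𝔤).1).map Complex.ofReal = A.1.map Complex.ofReal + B.1.map Complex.ofReal := by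
          ext i j; simp
        rw [this, add_mul, Matrix.trace_add]
      map_smul' := fun c A => by
        have : ((c • A : 𝔤).1).map Complex.ofReal = c • A.1.map Complex.ofReal := by
          ext i j; simp
        rw [this, smul_mul_assoc, Matrix.trace_smul, RingHom.id_apply] }
  have htr : tr = 0 := by
    refine H19.eq_zero_of_bracket tr fun A B => ?_
    change (((⁅A, B⁆ : 𝔤).1).map Complex.ofReal * P).trace = 0
    have e : ((⁅A, B⁆ : 𝔤).1).map Complex.ofReal =
        A.1.map Complex.ofReal * B.1.map Complex.ofReal -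
          B.1.map Complex.ofReal * A.1.map Complex.ofReal := by
      rw [LieSubalgebra.coe_bracket, LieRing.of_associative_ring_bracket, ← H19.cmap_mul,
        ← H19.cmap_mul]
      ext i j; simp
    rw [e, sub_mul, Matrix.trace_sub, mul_assoc, hc B.1 B.2, ← mul_assoc, Matrix.trace_mul_comm,
      ← mul_assoc, sub_self]
  have h0 : ∀ X ∈ 𝔤, (X.map Complex.ofReal * P).trace = 0 := by
    intro X hX
    have := LinearMap.congr_fun htr ⟨X, hX⟩
    exact this
  have h1 : ∀ X ∈ 𝔤, H19.chi P (exp X) = 1 := by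
    intro X hX
    have := H19.chi_exp_eq_one (X := X) hP
      (fun t => H19.exp_commutes (hc _ (𝔤.smul_mem t hX))) (h0 X hX) 1
    rwa [one_smul] at this
  have h2 : ∀ l : List (Matrix (Fin N) (Fin N) ℝ), (∀ X ∈ l, X ∈ 𝔤) →
      (l.map exp).prod.map Complex.ofReal * P = P * (l.map exp).prod.map Complex.ofReal ∧
      H19.chi P (l.map exp).prod = 1 := by
    intro l
    induction l with
    | nil =>
      intro _
      refine ⟨?_, ?_⟩
      · have : (1 : Matrix (Fin N) (Fin N) ℝ).map Complex.ofReal = 1 := by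
          ext i j
          simp only [Matrix.map_apply, Matrix.one_apply]
          split_ifs <;> simp
        rw [List.map_nil, List.prod_nil, this, one_mul, mul_one]
      · rw [List.map_nil, List.prod_nil, H19.chi_one]
    | cons X l ih =>
      intro h
      obtain ⟨i1, i2⟩ := ih fun Y hY => h Y (List.mem_cons_of_mem _ hY)
      have hX := h X List.mem_cons_self
      rw [List.map_cons, List.prod_cons]
      refine ⟨?_, ?_⟩
      · rw [H19.cmap_mul, mul_assoc, i1, ← mul_assoc, H19.exp_commutes (hc X hX), mul_assoc]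
      · rw [H19.chi_mul hP _ i1, h1 X hX, i2, one_mul]
  obtain ⟨q, hq⟩ := H19.chi_poly P
  obtain ⟨a, b, hab⟩ := H19.re_im_poly q
  have h3 : ∀ S : Matrix (Fin N) (Fin N) ℝ,
      H19.chi P S = ((polyVal a S : ℝ) : ℂ) + ((polyVal b S : ℝ) : ℂ) * Complex.I := by
    intro S
    rw [← hq S]
    exact hab fun ij => S ij.1 ij.2
  have h4 : ∀ l : List (Matrix (Fin N) (Fin N) ℝ), (∀ X ∈ l, X ∈ 𝔤) →
      polyVal a (l.map exp).prod = 1 ∧ polyVal b (l.map exp).prod = 0 := by
    intro l hl
    have := (h2 l hl).2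
    rw [h3] at this
    have r := congrArg Complex.re this
    have i := congrArg Complex.im this
    simp at r i
    exact ⟨r, i⟩
  have h5 : polyVal (a - 1) T = 0 := by
    refine hT _ fun l hl => ?_
    rw [polyVal, map_sub, map_one]
    have := (h4 l hl).1
    rw [polyVal] at this
    rw [this, sub_self]
  have h6 : polyVal b T = 0 := hT _ fun l hl => (h4 l hl).2
  have h7 : polyVal a T = 1 := by
    rw [polyVal, map_sub, map_one] at h5
    rw [polyVal]
    linarith
  have := h3 T
  rw [h6, h7] at this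
  rw [H19.chi] at this
  rw [this]
  simp

end Pool.Agent.Lib.MP_d9b062_al.Stmt
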